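import Pool.Agent.W728.LH.Stms

/-! # The variables satisfy `Gen` -/

set_option autoImplicit false

namespace Pool.Agent.W318.LH

open MvPolynomial Pool.Agent.W728.LH

theorem isC_eq {P : Type} [Field P] {m : ℕ} (c : MvPolynomial (Fin m) P) (h : IsC c) :
    ∃ r : P, c = C r := by
  rcases h with h | h
  · exact ⟨0, by simp [h]⟩
  · obtain ⟨r, -, hr⟩ := MvPolynomial.isUnit_iff_eq_C_of_isReduced.1 h
    exact ⟨r, hr⟩

theorem isC_C {P : Type} [Field P] {m : ℕ} (r : P) : IsC (C r : MvPolynomial (Fin m) P) := by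
  by_cases h : r = 0
  · left
    simp [h]
  · right
    exact (isUnit_iff_ne_zero.2 h).map C

theorem C_mem {P : Type} [Field P] {m : ℕ} (r : P) (s : Set (Fin m)) :
    (C r : MvPolynomial (Fin m) P) ∈ supported P s := by
  have := (supported P s).algebraMap_mem r
  simpa [MvPolynomial.algebraMap_eq] using this

theorem dec0 {P : Type} [Field P] {m : ℕ} (hm : 0 < m) (g : MvPolynomial (Fin m) P)
    (hg : g ∈ supported P {i : Fin m | i.val ≤ 0}) :
    ∃ (r : P) (h : MvPolynomial (Fin m) P), h ∈ supported P {i : Fin m | i.val ≤ 0} ∧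
      g = C r + X ⟨0, hm⟩ * h := by
  have hX : (X ⟨0, hm⟩ : MvPolynomial (Fin m) P) ∈ supported P {i : Fin m | i.val ≤ 0} := by
    rw [X_mem_supported]
    simp
  rw [supported] at hg
  induction hg using Algebra.adjoin_induction with
  | mem y hy =>
    obtain ⟨i, hi, rfl⟩ := hy
    have h0 : i = ⟨0, hm⟩ := Fin.ext (Nat.le_zero.1 hi)
    subst h0
    exact ⟨0, 1, Subalgebra.one_mem _, by simp⟩
  | algebraMap r => exact ⟨r, 0, Subalgebra.zero_mem _, by simp [MvPolynomial.algebraMap_eq]⟩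
  | add a b _ _ ha hb =>
    obtain ⟨r, h, hh, e⟩ := ha
    obtain ⟨s, k, hk, f⟩ := hb
    refine ⟨r + s, h + k, Subalgebra.add_mem _ hh hk, ?_⟩
    rw [e, f, C_add]
    ring
  | mul a b _ _ ha hb =>
    obtain ⟨r, h, hh, e⟩ := ha
    obtain ⟨s, k, hk, f⟩ := hb
    refine ⟨r * s, C r * k + C s * h + X ⟨0, hm⟩ * (h * k), ?_, ?_⟩
    · exact Subalgebra.add_mem _ (Subalgebra.add_mem _ (Subalgebra.mul_mem _ (C_mem _ _) hk)
        (Subalgebra.mul_mem _ (C_mem _ _) hh)) (Subalgebra.mul_mem _ hX (Subalgebra.mul_mem _ hh hk))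
    · rw [e, f, C_mul]
      ring

theorem t_TB (h1 : DEC_stmt) (h2 : CH_stmt) : TB_stmt := by
  intro P _ m hm S hS
  have hCH := h2 P m hm S hS
  have hx : ∀ k (hk : k < m), ext (fun i => (X i : MvPolynomial (Fin m) P)) k = X ⟨k, hk⟩ := by
    intro k hk
    simp [Pool.Agent.W728.LH.ext, hk]
  have hmono : ∀ a b : ℕ, a ≤ b → supported P {i : Fin m | i.val ≤ a} ≤
      supported P {i : Fin m | i.val ≤ b} := by
    intro a b hab
    exact supported_mono (fun i hi => le_trans hi hab)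
  refine ⟨?_, ?_, ?_, ?_, ?_⟩
  · rw [hx 0 hm]
    rintro (h | h)
    · exact X_ne_zero _ h
    · have h3 := h.map (MvPolynomial.eval (fun _ : Fin m => (0 : P)))
      rw [eval_X] at h3
      exact not_isUnit_zero h3
  · intro g hg
    rw [hx 0 hm] at hg ⊢
    obtain ⟨r, h, hh, e⟩ := dec0 hm g ((hS g).1 hg)
    exact ⟨C r, h, isC_C r, (hS h).2 hh, e⟩
  · intro k hk
    refine ⟨?_, ?_, ?_⟩
    · intro c hc
      obtain ⟨r, rfl⟩ := isC_eq c hc
      exact (hCH k hk _).2 (C_mem _ _)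
    · rw [hCH k hk, hx k hk, X_mem_supported]
      simp
    · intro g h hg hh
      rw [hCH k hk] at hg hh ⊢
      rw [hCH k hk]
      exact ⟨Subalgebra.add_mem _ hg hh, Subalgebra.mul_mem _ hg hh⟩
  · intro k hk
    have hk1 : k + 1 < m := by omega
    have hk0 : k < m := by omega
    obtain ⟨hd1, hd2⟩ := h1 P m k hk1
    refine ⟨?_, ?_, ?_⟩
    · intro g hg
      rw [hCH k hk0] at hg
      rw [hCH (k + 1) hk1]
      exact hmono k (k + 1) (by omega) hg
    · intro f g hf hg
      rw [hx 0 hm, hS] at hf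
      rw [hCH (k + 1) hk1] at hg
      obtain ⟨d, hd, h, hh, e⟩ := hd1 f (hmono 0 k (by omega) hf) g hg
      refine ⟨d, h, (hCH k hk0 d).2 hd, (hCH (k + 1) hk1 h).2 hh, ?_⟩
      rw [hx (k + 1) hk1]
      exact e
    · intro f h hf _ hh
      rw [hx 0 hm, hS] at hf
      rw [hCH k hk0, hx (k + 1) hk1] at hh
      exact hd2 f (hmono 0 k (by omega) hf) h hh
  · intro g
    rw [hCH (m - 1) (by omega)]
    have h3 : {i : Fin m | i.val ≤ m - 1} = Set.univ := by
      ext i
      have := i.isLt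
      simp only [Set.mem_ofPred_eq, Set.mem_univ, iff_true]
      omega
    rw [h3, supported_univ]
    exact Algebra.mem_top

end Pool.Agent.W318.LH
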